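import Pool.Agent.R488.Nin.Defs

set_option autoImplicit false

/-!
NIN-A (helper139): two evaluations of a terminating `2F1(9/8)` by certificates.
-/

namespace Pool.Agent.R488.Nin

open Finset

namespace NA

theorem FA_zero (n : ℕ) : FA n 0 = 1 := by simp [FA]

theorem FA_succ (n k : ℕ) : FA n (k + 1) = FA n k *
    (-(9 / 8) * ((n : ℚ) - k) * (n - 1 / 3 - k) / ((3 * n - k) * (1 + k))) := by
  unfold FA
  rw [prod_range_succ]

theorem R1 (n k : ℕ) (h : k ≤ n) (hn : 0 < n) :
    FA n (k + 1) * (8 * (3 * n - k) * (k + 1)) = -((3 * n - 3 * k) * (3 * n - 1 - 3 * k)) * FA n k := by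
  have h1 : (k : ℚ) ≤ n := by exact_mod_cast h
  have h2 : (0 : ℚ) < n := by exact_mod_cast hn
  have h3 : (3 * (n : ℚ) - k) ≠ 0 := by
    have : 0 < 3 * (n : ℚ) - k := by linarith
    exact this.ne'
  have h4 : (1 + (k : ℚ)) ≠ 0 := by positivity
  rw [FA_succ]
  have h5 := div_mul_cancel₀ (-(9 / 8) * ((n : ℚ) - k) * (n - 1 / 3 - k)) (mul_ne_zero h3 h4)
  linear_combination (8 * FA n k) * h5

theorem R2 (n k : ℕ) (h : k ≤ n) :
    8 * (3 * n + 1) * (k + 1) * FA (n + 1) (k + 1) = -((3 * n + 2 - k) * (3 * n + 1 - k)) * FA n k := by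
  induction k with
  | zero =>
    rw [FA_succ, FA_zero, FA_zero]
    have h3 : ((n : ℚ) + 1) ≠ 0 := by positivity
    push_cast
    simp only [sub_zero, add_zero, mul_one, zero_add, one_mul]
    field_simp
    ring
  | succ k ih =>
    have ih' := ih (by omega)
    have hn : 0 < n := by omega
    have r1 := R1 n k (by omega) hn
    have hk : (k : ℚ) + 1 ≤ n := by exact_mod_cast h
    have h5 : (3 * ((n : ℚ) + 1) - (k + 1)) ≠ 0 := by
      have : 0 < 3 * ((n : ℚ) + 1) - (k + 1) := by linarith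
      exact this.ne'
    have h6 : (1 + ((k : ℚ) + 1)) ≠ 0 := by positivity
    have h7 : (8 * ((k : ℚ) + 1)) ≠ 0 := by positivity
    have r2 : FA (n + 1) (k + 1 + 1) * (8 * (3 * n + 2 - k) * (k + 2)) =
        -((3 * n - 3 * k) * (3 * n - 1 - 3 * k)) * FA (n + 1) (k + 1) := by
      rw [FA_succ]
      push_cast
      have h5 := div_mul_cancel₀ (-(9 / 8) * (((n : ℚ) + 1) - (k + 1)) * ((n + 1) - 1 / 3 - (k + 1)))
        (mul_ne_zero h5 h6)
      linear_combination (8 * FA (n + 1) (k + 1)) * h5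
    have h8 : (3 * (n : ℚ) + 2 - k) ≠ 0 := by
      have : 0 < 3 * (n : ℚ) + 2 - k := by linarith
      exact this.ne'
    have h9 : (8 * (3 * (n : ℚ) + 2 - k)) * ((k + 1) *
        (8 * (3 * n + 1) * ((k + 1 : ℕ) + 1) * FA (n + 1) (k + 1 + 1) +
          ((3 * n + 2 - ((k + 1 : ℕ) : ℚ)) * (3 * n + 1 - ((k + 1 : ℕ) : ℚ))) * FA n (k + 1))) = 0 := by
      push_cast
      linear_combination (8 * (3 * (n : ℚ) + 1) * (k + 1)) * r2 -
        ((3 * (n : ℚ) - 3 * k) * (3 * n - 1 - 3 * k)) * ih' +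
        ((3 * (n : ℚ) + 2 - k) * (3 * n + 1 - k)) * r1
    have h10 : ((k : ℚ) + 1) ≠ 0 := by positivity
    have h11 : (8 * (3 * (n : ℚ) + 2 - k)) ≠ 0 := mul_ne_zero (by norm_num) h8
    rcases mul_eq_zero.1 h9 with h | h
    · exact absurd h h11
    · rcases mul_eq_zero.1 h with h | h
      · exact absurd h h10
      · linear_combination h

theorem P1 (n K : ℕ) (h : K ≤ n) :
    ∑ k ∈ range (K + 1), (4 * (3 * (n : ℚ) + 1) * FA (n + 1) k - 3 * (2 * n + 1) * FA n k) =
      (6 * n + 1 - 4 * K) * FA n K := by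
  induction K with
  | zero =>
    simp only [zero_add, sum_range_one, FA_zero]
    push_cast
    ring
  | succ K ih =>
    rw [sum_range_succ, ih (by omega)]
    have r1 := R1 n K (by omega) (by omega)
    have r2 := R2 n K (by omega)
    have h1 : (2 * ((K : ℚ) + 1)) ≠ 0 := by positivity
    apply mul_left_cancel₀ h1
    push_cast
    linear_combination r2 - r1

theorem P2 (n K : ℕ) (h : K ≤ n) :
    ∑ k ∈ range (K + 1), (4 * (3 * (n : ℚ) + 1) * (k + 3 * n + 5) * FA (n + 1) k -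
      (6 * n + 7) * (k + 3 * n + 2) * FA n k) =
      (3 * n + 6 + K) * (6 * n + 1 - 4 * K) * FA n K := by
  induction K with
  | zero =>
    simp only [zero_add, sum_range_one, FA_zero]
    push_cast
    ring
  | succ K ih =>
    rw [sum_range_succ, ih (by omega)]
    have r1 := R1 n K (by omega) (by omega)
    have r2 := R2 n K (by omega)
    have h1 : (2 * ((K : ℚ) + 1)) ≠ 0 := by positivity
    apply mul_left_cancel₀ h1
    push_cast
    linear_combination (3 * (n : ℚ) + 6 + K) * (r2 - r1)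

theorem last (n : ℕ) : 4 * (3 * (n : ℚ) + 1) * FA (n + 1) (n + 1) = -(2 * n + 1) * FA n n := by
  have r2 := R2 n n le_rfl
  have h1 : (2 * ((n : ℚ) + 1)) ≠ 0 := by positivity
  apply mul_left_cancel₀ h1
  linear_combination r2

theorem S_succ (n : ℕ) : 4 * (3 * (n : ℚ) + 1) * ∑ k ∈ range (n + 1 + 1), FA (n + 1) k =
    3 * (2 * n + 1) * ∑ k ∈ range (n + 1), FA n k := by
  have h := P1 n n le_rfl
  rw [sum_sub_distrib, ← mul_sum, ← mul_sum] at h
  rw [sum_range_succ, mul_add, last]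
  linear_combination h

theorem T_succ (n : ℕ) :
    4 * (3 * (n : ℚ) + 1) * ∑ k ∈ range (n + 1 + 1), ((k : ℚ) + 3 * (n + 1 : ℕ) + 2) * FA (n + 1) k =
    (6 * n + 7) * ∑ k ∈ range (n + 1), ((k : ℚ) + 3 * n + 2) * FA n k := by
  have h := P2 n n le_rfl
  rw [sum_sub_distrib] at h
  have e1 : ∑ k ∈ range (n + 1), 4 * (3 * (n : ℚ) + 1) * (k + 3 * n + 5) * FA (n + 1) k =
      4 * (3 * (n : ℚ) + 1) * ∑ k ∈ range (n + 1), ((k : ℚ) + 3 * (n + 1 : ℕ) + 2) * FA (n + 1) k := by
    rw [mul_sum]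
    refine sum_congr rfl fun k _ => ?_
    push_cast
    ring
  have e2 : ∑ k ∈ range (n + 1), (6 * (n : ℚ) + 7) * (k + 3 * n + 2) * FA n k =
      (6 * n + 7) * ∑ k ∈ range (n + 1), ((k : ℚ) + 3 * n + 2) * FA n k := by
    rw [mul_sum]
    refine sum_congr rfl fun k _ => ?_
    ring
  rw [e1, e2] at h
  rw [sum_range_succ, mul_add]
  have l := last n
  push_cast at h ⊢
  linear_combination h + (4 * (n : ℚ) + 6) * l

end NA

open NA

theorem evA : StmtA := by
  intro n
  induction n with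
  | zero => simp [FA]
  | succ n ih =>
    have h := S_succ n
    rw [ih] at h
    have h1 : (4 * (3 * (n : ℚ) + 1)) ≠ 0 := by positivity
    apply mul_left_cancel₀ h1
    rw [h, prod_range_succ, pow_succ]
    have h2 : ((1 : ℚ) / 3 + n) ≠ 0 := by positivity
    field_simp
    ring

theorem evGA : StmtGA := by
  intro n
  induction n with
  | zero => simp [FA]
  | succ n ih =>
    have h := T_succ n
    rw [ih] at h
    have h1 : (4 * (3 * (n : ℚ) + 1)) ≠ 0 := by positivity
    apply mul_left_cancel₀ h1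
    rw [h, prod_range_succ, pow_succ]
    have h2 : ((1 : ℚ) / 3 + n) ≠ 0 := by positivity
    field_simp
    ring_nf

end Pool.Agent.R488.Nin
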