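import Pool.Agent.R488.Nin.Defs

set_option autoImplicit false

/-!
NIN-B: two exact evaluations of a terminating `2F1(9/8)` (WZ method), for MP_96ca4c_nt.
-/

namespace Pool.Agent.R488.Nin

open Finset

namespace NB

lemma FB_zero (n : ℕ) : FB n 0 = 1 := by
  unfold FB
  simp

lemma FB_succ (n k : ℕ) (hk : k ≤ n) :
    FB n (k + 1) * ((3 * (n : ℚ) + 1 - k) * (k + 1)) = -(9 / 8) * ((n : ℚ) - k) * (n + 1 / 3 - k) * FB n k := by
  have hk' : (k : ℚ) ≤ n := by exact_mod_cast hk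
  have hk0 : (0 : ℚ) ≤ k := Nat.cast_nonneg k
  have h1 : (3 * (n : ℚ) + 1 - k) ≠ 0 := by
    have : 0 < 3 * (n : ℚ) + 1 - k := by linarith
    exact this.ne'
  have h2 : ((k : ℚ) + 1) ≠ 0 := by positivity
  unfold FB
  rw [prod_range_succ]
  have h3 : (-(9 / 8) * ((n : ℚ) - k) * (n + 1 / 3 - k) / ((3 * n + 1 - k) * (1 + k))) * ((3 * (n : ℚ) + 1 - k) * (k + 1)) =
      -(9 / 8) * ((n : ℚ) - k) * (n + 1 / 3 - k) := by
    rw [add_comm (1 : ℚ) (k : ℚ)]
    exact div_mul_cancel₀ _ (mul_ne_zero h1 h2)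
  rw [mul_assoc, h3, mul_comm]

lemma FB_next (n k : ℕ) (hk : k ≤ n) :
    FB (n + 1) k * (((n : ℚ) + 1 - k) * (n + 4 / 3 - k) * (3 * n + 4) * (3 * n + 3) * (3 * n + 2)) =
      ((n : ℚ) + 1) * (n + 4 / 3) * (3 * n + 4 - k) * (3 * n + 3 - k) * (3 * n + 2 - k) * FB n k := by
  induction k with
  | zero =>
    rw [FB_zero, FB_zero]
    push_cast
    ring
  | succ k ih =>
    have ih' := ih (by omega)
    have hk' : (k : ℚ) + 1 ≤ n := by exact_mod_cast hk
    have hk0 : (0 : ℚ) ≤ k := Nat.cast_nonneg k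
    have a1 := FB_succ (n + 1) k (by omega)
    have a2 := FB_succ n k (by omega)
    push_cast at a1 a2 ih' ⊢
    have hM : (3 * (n : ℚ) + 4 - k) * (k + 1) ≠ 0 := by
      have : 0 < (3 * (n : ℚ) + 4 - k) * (k + 1) := by
        apply mul_pos
        · linarith
        · linarith
      exact this.ne'
    apply mul_left_cancel₀ hM
    linear_combination (((n : ℚ) - k) * (n + 1 / 3 - k) * (3 * n + 4) * (3 * n + 3) * (3 * n + 2)) * a1 +
      (-(9 / 8) * ((n : ℚ) - k) * (n + 1 / 3 - k)) * ih' -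
      (((n : ℚ) + 1) * (n + 4 / 3) * (3 * n + 3 - k) * (3 * n + 2 - k) * (3 * n + 4 - k)) * a2

lemma sum1 (n K : ℕ) (hK : K ≤ n) :
    ∑ k ∈ range (K + 1), (4 * (3 * (n : ℚ) + 2) * FB (n + 1) k - (6 * n + 5) * FB n k) =
      (6 * (n : ℚ) + 3 - 4 * K) * FB n K := by
  induction K with
  | zero =>
    rw [zero_add, sum_range_one, FB_zero, FB_zero]
    push_cast
    ring
  | succ K ih =>
    rw [sum_range_succ, ih (by omega)]
    have hk' : (K : ℚ) + 1 ≤ n := by exact_mod_cast hK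
    have hk0 : (0 : ℚ) ≤ K := Nat.cast_nonneg K
    have hb := FB_next n (K + 1) hK
    have ha := FB_succ n K (by omega)
    push_cast at hb ha ⊢
    have hM : ((n : ℚ) - K) * (n + 1 / 3 - K) * (3 * n + 4) * (3 * n + 3) ≠ 0 := by
      have h1 : 0 < (n : ℚ) - K := by linarith
      have h2 : 0 < (n : ℚ) + 1 / 3 - K := by linarith
      have h3 : 0 < 3 * (n : ℚ) + 4 := by linarith
      have h4 : 0 < 3 * (n : ℚ) + 3 := by linarith
      positivity
    apply mul_left_cancel₀ hM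
    linear_combination 4 * hb + (8 / 9) * (6 * (n : ℚ) + 3 - 4 * K) * (3 * n + 4) * (3 * n + 3) * ha

lemma sum2 (n K : ℕ) (hK : K ≤ n) :
    ∑ k ∈ range (K + 1), (4 * (3 * (n : ℚ) + 2) * ((k + 3 * n + 6) * FB (n + 1) k) -
      3 * (2 * n + 3) * ((k + 3 * n + 3) * FB n k)) =
      (3 * (n : ℚ) + 7 + K) * (6 * n + 3 - 4 * K) * FB n K := by
  induction K with
  | zero =>
    rw [zero_add, sum_range_one, FB_zero, FB_zero]
    push_cast
    ring
  | succ K ih =>
    rw [sum_range_succ, ih (by omega)]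
    have hk' : (K : ℚ) + 1 ≤ n := by exact_mod_cast hK
    have hk0 : (0 : ℚ) ≤ K := Nat.cast_nonneg K
    have hb := FB_next n (K + 1) hK
    have ha := FB_succ n K (by omega)
    push_cast at hb ha ⊢
    have hM : ((n : ℚ) - K) * (n + 1 / 3 - K) * (3 * n + 4) * (3 * n + 3) ≠ 0 := by
      have h1 : 0 < (n : ℚ) - K := by linarith
      have h2 : 0 < (n : ℚ) + 1 / 3 - K := by linarith
      have h3 : 0 < 3 * (n : ℚ) + 4 := by linarith
      have h4 : 0 < 3 * (n : ℚ) + 3 := by linarith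
      positivity
    apply mul_left_cancel₀ hM
    linear_combination 4 * ((K : ℚ) + 1 + 3 * n + 6) * hb +
      (8 / 9) * (3 * (n : ℚ) + 7 + K) * (6 * (n : ℚ) + 3 - 4 * K) * (3 * n + 4) * (3 * n + 3) * ha

lemma last (n : ℕ) : 4 * (3 * (n : ℚ) + 2) * FB (n + 1) (n + 1) = -(2 * n + 3) * FB n n := by
  have hn : (0 : ℚ) ≤ n := Nat.cast_nonneg n
  have a1 := FB_succ (n + 1) n (by omega)
  have a2 := FB_next n n le_rfl
  push_cast at a1 a2
  have hM : (2 * (n : ℚ) + 4) * (n + 1) * (4 / 3) * (3 * n + 4) * (3 * n + 3) ≠ 0 := by positivity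
  apply mul_left_cancel₀ hM
  linear_combination (4 * (3 * (n : ℚ) + 2) * (4 / 3) * (3 * n + 4) * (3 * n + 3)) * a1 - 6 * a2

end NB

open NB in
theorem evB : StmtB := by
  intro n
  induction n with
  | zero =>
    rw [zero_add, sum_range_one, FB_zero]
    simp
  | succ n ih =>
    have hn : (0 : ℚ) ≤ n := Nat.cast_nonneg n
    have h1 := sum1 n n le_rfl
    rw [sum_sub_distrib, ← mul_sum, ← mul_sum, ih] at h1
    have h2 := last n
    rw [sum_range_succ, prod_range_succ]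
    have h3 : 4 * (3 * (n : ℚ) + 2) ≠ 0 := by positivity
    apply mul_left_cancel₀ h3
    have h4 : (2 / 3 + (n : ℚ)) ≠ 0 := by positivity
    have h5 : 4 * (3 * (n : ℚ) + 2) * ((1 / 2) ^ (n + 1) * ((∏ i ∈ range n, ((5 / 6 + i) / (2 / 3 + i) : ℚ)) *
        ((5 / 6 + n) / (2 / 3 + n)))) = (6 * n + 5) * ((1 / 2) ^ n * ∏ i ∈ range n, ((5 / 6 + i) / (2 / 3 + i) : ℚ)) := by
      rw [pow_succ]
      field_simp
      ring
    rw [h5]
    linear_combination h1 + h2

open NB in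
theorem evGB : StmtGB := by
  intro n
  induction n with
  | zero =>
    rw [zero_add, sum_range_one, FB_zero]
    simp
  | succ n ih =>
    have hn : (0 : ℚ) ≤ n := Nat.cast_nonneg n
    have h1 := sum2 n n le_rfl
    rw [sum_sub_distrib, ← mul_sum, ← mul_sum, ih] at h1
    have h2 := last n
    rw [sum_range_succ, prod_range_succ]
    have h3 : 4 * (3 * (n : ℚ) + 2) ≠ 0 := by positivity
    apply mul_left_cancel₀ h3
    have h4 : (2 / 3 + (n : ℚ)) ≠ 0 := by positivity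
    have h5 : 4 * (3 * (n : ℚ) + 2) * (3 * (1 / 2) ^ (n + 1) * ((∏ i ∈ range n, ((3 / 2 + i) / (2 / 3 + i) : ℚ)) *
        ((3 / 2 + n) / (2 / 3 + n)))) = 3 * (2 * n + 3) * (3 * (1 / 2) ^ n * ∏ i ∈ range n, ((3 / 2 + i) / (2 / 3 + i) : ℚ)) := by
      rw [pow_succ]
      field_simp
      ring
    rw [h5]
    have h6 : ∑ k ∈ range (n + 1), ((k : ℚ) + 3 * ((n + 1 : ℕ) : ℚ) + 3) * FB (n + 1) k =
        ∑ k ∈ range (n + 1), ((k : ℚ) + 3 * n + 6) * FB (n + 1) k := by
      apply sum_congr rfl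
      intro k _
      push_cast
      ring
    rw [h6]
    push_cast
    linear_combination h1 + (4 * (n : ℚ) + 7) * h2

end Pool.Agent.R488.Nin
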