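import Mathlib

set_option autoImplicit false

/-!
Statements for MP_96ca4c_nt (`∑ (k+2) C(3k;k,k,k)/24^k = x` modulo `p^2`): four evaluations of
terminating `2F1(9/8)`.
-/

namespace Pool.Agent.R488.Nin

open Finset

/-- `(-n)_k (1/3-n)_k / ((-3n)_k k!) (9/8)^k` -/
def FA (n k : ℕ) : ℚ := ∏ i ∈ range k,
  (-(9 / 8) * ((n : ℚ) - i) * (n - 1 / 3 - i) / ((3 * n - i) * (1 + i)))

/-- `(-n)_k (-1/3-n)_k / ((-3n-1)_k k!) (9/8)^k` -/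
def FB (n k : ℕ) : ℚ := ∏ i ∈ range k,
  (-(9 / 8) * ((n : ℚ) - i) * (n + 1 / 3 - i) / ((3 * n + 1 - i) * (1 + i)))

/-- NIN-A -/
def StmtA : Prop := ∀ n : ℕ, ∑ k ∈ range (n + 1), FA n k =
  (1 / 2) ^ n * ∏ i ∈ range n, ((1 / 2 + i) / (1 / 3 + i) : ℚ)

def StmtGA : Prop := ∀ n : ℕ, ∑ k ∈ range (n + 1), ((k : ℚ) + 3 * n + 2) * FA n k =
  2 * (1 / 2) ^ n * ∏ i ∈ range n, ((7 / 6 + i) / (1 / 3 + i) : ℚ)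

/-- NIN-B -/
def StmtB : Prop := ∀ n : ℕ, ∑ k ∈ range (n + 1), FB n k =
  (1 / 2) ^ n * ∏ i ∈ range n, ((5 / 6 + i) / (2 / 3 + i) : ℚ)

def StmtGB : Prop := ∀ n : ℕ, ∑ k ∈ range (n + 1), ((k : ℚ) + 3 * n + 3) * FB n k =
  3 * (1 / 2) ^ n * ∏ i ∈ range n, ((3 / 2 + i) / (2 / 3 + i) : ℚ)

end Pool.Agent.R488.Nin
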