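import Mathlib
import Pool.Agent.R488.Cub.Facts
import Pool.Agent.R488.Nin.Defs

set_option autoImplicit false

/-!
The two families `∑ tn u k`, `∑ (k+1+3u) tn u k` for MP_96ca4c_nt and their values at `0`, `p/3`,
`2p/3`.
-/

namespace Pool.Agent.R488.Nin

open Finset Pool.Agent.R439.PL Pool.Agent.R439.PL.S4 Pool.Agent.R488.Tri Pool.Agent.R488.Cub

variable {p j : ℕ} [hp : Fact p.Prime]

def tn (u : ℚ) (k : ℕ) : ℚ := (9 / 8) ^ k * ∏ i ∈ range k,
  ((1 / 3 + i - u) * (2 / 3 + i - u) * ((1 + i - 3 * u) * (1 + i))⁻¹)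

def AA (p : ℕ) (u : ℚ) : ℚ := ∑ k ∈ range p, tn u k

def GG (p : ℕ) (u : ℚ) : ℚ := ∑ k ∈ range p, ((k : ℚ) + 1 + 3 * u) * tn u k

theorem lin_tn (hpj : p = 6 * j + 1) {k : ℕ} (hk' : k < p) : Lin p (fun u => tn u k) := by
  have u3 := U3 hpj
  have u2 := U2 hpj
  have m13 : (1 / 3 : ℚ) ∈ Zp p := by rw [one_div]; exact u3.2.2
  have m23 : (2 / 3 : ℚ) ∈ Zp p := by rw [div_eq_mul_inv]; exact mul_mem u2.2.1 u3.2.2
  have h98 : (9 / 8 : ℚ) ∈ Zp p := by
    have : (9 / 8 : ℚ) = 3 * 3 * (2⁻¹ * 2⁻¹ * 2⁻¹) := by norm_num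
    rw [this]; exact mul_mem (mul_mem u3.2.1 u3.2.1) (mul_mem (mul_mem u2.2.2 u2.2.2) u2.2.2)
  have h9 : (9 / 8 : ℚ) ^ k ∈ Zp p := pow_mem h98 _
  have h1 : Lin p (fun u => (9 / 8 : ℚ) ^ k + 0 * u) := Lin.affine h9 (zero_mem _)
  have h2 : Lin p (fun u => ∏ i ∈ range k,
      (((1 / 3 + i : ℚ) + (-1) * u) * ((2 / 3 + i : ℚ) + (-1) * u) *
        (((1 + i : ℚ) + (-3) * u) * ((1 + i : ℚ) + 0 * u))⁻¹)) := by
    refine Lin.prod fun i hi => ?_
    have hi' := mem_range.1 hi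
    have a1 : (1 / 3 + i : ℚ) ∈ Zp p := add_mem m13 (nat_mem i)
    have a2 : (2 / 3 + i : ℚ) ∈ Zp p := add_mem m23 (nat_mem i)
    have u1 := U_nat (p := p) (k := 1 + i) (by omega) (by omega)
    push_cast at u1
    have m1 : (-1 : ℚ) ∈ Zp p := neg_mem (one_mem _)
    have m3 : (-3 : ℚ) ∈ Zp p := by exact_mod_cast int_mem (p := p) (-3)
    refine ((Lin.affine a1 m1).mul (Lin.affine a2 m1)).mul (Lin.inv ((Lin.affine u1.2.1 m3).mul
      (Lin.affine u1.2.1 (zero_mem _))) ?_)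
    simpa using u1.mul u1
  have h3 := h1.mul h2
  have e : (fun u => ((9 / 8 : ℚ) ^ k + 0 * u) * ∏ i ∈ range k,
      (((1 / 3 + i : ℚ) + (-1) * u) * ((2 / 3 + i : ℚ) + (-1) * u) *
        (((1 + i : ℚ) + (-3) * u) * ((1 + i : ℚ) + 0 * u))⁻¹)) = fun u => tn u k := by
    funext u
    rw [tn, zero_mul, add_zero]
    congr 1
    refine prod_congr rfl fun i _ => ?_
    rw [add_zero]
    congr 1
    · ring
    · congr 2; ring
  rwa [e] at h3

theorem lin_AA (hpj : p = 6 * j + 1) : Lin p (AA p) :=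
  Lin.sum fun k hk => lin_tn hpj (mem_range.1 hk)

theorem lin_GG (hpj : p = 6 * j + 1) : Lin p (GG p) := by
  refine Lin.sum fun k hk => ?_
  have h := lin_tn (p := p) hpj (mem_range.1 hk)
  have u3 := U3 hpj
  have h1 : Lin p (fun u => ((k : ℚ) + 1) + 3 * u) := Lin.affine (add_mem (nat_mem k) (one_mem _)) u3.2.1
  exact h1.mul h

theorem FA_zero {n k : ℕ} (h : n < k) : FA n k = 0 := by
  rw [FA]
  refine prod_eq_zero (i := n) (mem_range.2 h) ?_
  rw [sub_self]; simp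

theorem FB_zero {n k : ℕ} (h : n < k) : FB n k = 0 := by
  rw [FB]
  refine prod_eq_zero (i := n) (mem_range.2 h) ?_
  rw [sub_self]; simp

theorem tn_one (hpj : p = 6 * j + 1) (k : ℕ) : tn (p / 3) k = FA (2 * j) k := by
  have hpq : (p : ℚ) = 6 * j + 1 := by exact_mod_cast hpj
  have h9 : (9 / 8 : ℚ) ^ k = ∏ i ∈ range k, (9 / 8 : ℚ) := by rw [prod_const, card_range]
  rw [tn, FA, h9, ← prod_mul_distrib]
  refine prod_congr rfl fun i _ => ?_
  have e1 : (1 / 3 + i - (p : ℚ) / 3 : ℚ) = -(((2 * j : ℕ) : ℚ) - i) := by rw [hpq]; push_cast; ring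
  have e2 : (2 / 3 + i - (p : ℚ) / 3 : ℚ) = -(((2 * j : ℕ) : ℚ) - 1 / 3 - i) := by rw [hpq]; push_cast; ring
  have e3 : (1 + i - 3 * ((p : ℚ) / 3) : ℚ) = -(3 * ((2 * j : ℕ) : ℚ) - i) := by rw [hpq]; push_cast; ring
  rw [e1, e2, e3, neg_mul (3 * ((2 * j : ℕ) : ℚ) - i), inv_neg, div_eq_mul_inv]
  ring

theorem tn_two (hpj : p = 6 * j + 1) (k : ℕ) : tn (2 * (p / 3)) k = FB (4 * j) k := by
  have hpq : (p : ℚ) = 6 * j + 1 := by exact_mod_cast hpj
  have h9 : (9 / 8 : ℚ) ^ k = ∏ i ∈ range k, (9 / 8 : ℚ) := by rw [prod_const, card_range]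
  rw [tn, FB, h9, ← prod_mul_distrib]
  refine prod_congr rfl fun i _ => ?_
  have e1 : (1 / 3 + i - 2 * ((p : ℚ) / 3) : ℚ) = -(((4 * j : ℕ) : ℚ) + 1 / 3 - i) := by rw [hpq]; push_cast; ring
  have e2 : (2 / 3 + i - 2 * ((p : ℚ) / 3) : ℚ) = -(((4 * j : ℕ) : ℚ) - i) := by rw [hpq]; push_cast; ring
  have e3 : (1 + i - 3 * (2 * ((p : ℚ) / 3)) : ℚ) = -(3 * ((4 * j : ℕ) : ℚ) + 1 - i) := by
    rw [hpq]; push_cast; ring
  rw [e1, e2, e3, neg_mul (3 * ((4 * j : ℕ) : ℚ) + 1 - i), inv_neg, div_eq_mul_inv]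
  ring

theorem AA_one (h : StmtA) (hpj : p = 6 * j + 1) : AA p (p / 3) =
    (1 / 2) ^ (2 * j) * ∏ i ∈ range (2 * j), ((1 / 2 + i) / (1 / 3 + i) : ℚ) := by
  rw [← h (2 * j), AA]
  rw [sum_congr rfl fun k _ => tn_one hpj k]
  symm
  exact sum_subset (range_subset_range.2 (by omega)) fun k _ hk => FA_zero (by have := mt mem_range.2 hk; omega)

theorem AA_two (h : StmtB) (hpj : p = 6 * j + 1) : AA p (2 * (p / 3)) =
    (1 / 2) ^ (4 * j) * ∏ i ∈ range (4 * j), ((5 / 6 + i) / (2 / 3 + i) : ℚ) := by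
  have hj := j_pos hpj
  rw [← h (4 * j), AA]
  rw [sum_congr rfl fun k _ => tn_two hpj k]
  symm
  exact sum_subset (range_subset_range.2 (by omega)) fun k _ hk => FB_zero (by have := mt mem_range.2 hk; omega)

theorem GG_one (h : StmtGA) (hpj : p = 6 * j + 1) : GG p (p / 3) =
    2 * (1 / 2) ^ (2 * j) * ∏ i ∈ range (2 * j), ((7 / 6 + i) / (1 / 3 + i) : ℚ) := by
  have hpq : (p : ℚ) = 6 * j + 1 := by exact_mod_cast hpj
  rw [← h (2 * j), GG]
  have h1 : ∀ k ∈ range p, ((k : ℚ) + 1 + 3 * (p / 3)) * tn (p / 3) k =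
      ((k : ℚ) + 3 * ((2 * j : ℕ) : ℚ) + 2) * FA (2 * j) k := by
    intro k _
    rw [tn_one hpj k]
    congr 1
    rw [hpq]; push_cast; ring
  rw [sum_congr rfl h1]
  symm
  exact sum_subset (range_subset_range.2 (by omega)) fun k _ hk => by
    rw [FA_zero (by have := mt mem_range.2 hk; omega), mul_zero]

theorem GG_two (h : StmtGB) (hpj : p = 6 * j + 1) : GG p (2 * (p / 3)) =
    3 * (1 / 2) ^ (4 * j) * ∏ i ∈ range (4 * j), ((3 / 2 + i) / (2 / 3 + i) : ℚ) := by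
  have hpq : (p : ℚ) = 6 * j + 1 := by exact_mod_cast hpj
  have hj := j_pos hpj
  rw [← h (4 * j), GG]
  have h1 : ∀ k ∈ range p, ((k : ℚ) + 1 + 3 * (2 * (p / 3))) * tn (2 * (p / 3)) k =
      ((k : ℚ) + 3 * ((4 * j : ℕ) : ℚ) + 3) * FB (4 * j) k := by
    intro k _
    rw [tn_two hpj k]
    congr 1
    rw [hpq]; push_cast; ring
  rw [sum_congr rfl h1]
  symm
  exact sum_subset (range_subset_range.2 (by omega)) fun k _ hk => by
    rw [FB_zero (by have := mt mem_range.2 hk; omega), mul_zero]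

/-- `H(5j) = H(j)` modulo `p` -/
theorem H51 (hpj : p = 6 * j + 1) : I p 1 (H (5 * j) - H j) := by
  have hpq : (p : ℚ) = 6 * j + 1 := by exact_mod_cast hpj
  have h1 : H (5 * j) - H j = ∑ i ∈ range (4 * j), ((5 * j : ℕ) - (i : ℚ))⁻¹ := by
    rw [H_sub _ _ (by omega), show 5 * j - 4 * j = j by omega]
  have h2 : H (5 * j) - H j = ∑ i ∈ range (4 * j), ((j : ℚ) + 1 + i)⁻¹ := by
    rw [h1, ← sum_range_reflect]
    refine sum_congr rfl fun i hi => ?_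
    have hi' := mem_range.1 hi
    rw [Nat.sub_sub, Nat.cast_sub (show 1 + i ≤ 4 * j by omega)]
    congr 1
    push_cast; ring
  have h3 : 2 * (H (5 * j) - H j) = ∑ i ∈ range (4 * j), (p : ℚ) *
      (((5 * j : ℕ) - (i : ℚ))⁻¹ * ((j : ℚ) + 1 + i)⁻¹) := by
    have : 2 * (H (5 * j) - H j) = (H (5 * j) - H j) + (H (5 * j) - H j) := by ring
    rw [this]
    conv_lhs => rw [h1]
    rw [h1] at h2
    conv_lhs => arg 2; rw [h2]
    rw [← sum_add_distrib]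
    refine sum_congr rfl fun i hi => ?_
    have hi' := mem_range.1 hi
    have a1 : ((5 * j : ℕ) - (i : ℚ)) ≠ 0 := by
      have := Nat.cast_sub (R := ℚ) (show i ≤ 5 * j by omega)
      rw [← this]
      exact_mod_cast (show 5 * j - i ≠ 0 by omega)
    have a2 : (j : ℚ) + 1 + i ≠ 0 := by positivity
    rw [hpq]
    push_cast at a1 ⊢
    field_simp
    ring
  have h4 : I p 1 (2 * (H (5 * j) - H j)) := by
    rw [h3]
    refine I.sum fun i hi => ?_
    have hi' := mem_range.1 hi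
    have u1 := U_nat (p := p) (k := 5 * j - i) (by omega) (by omega)
    have u2 := U_nat (p := p) (k := j + 1 + i) (by omega) (by omega)
    rw [Nat.cast_sub (by omega)] at u1
    push_cast at u1 u2
    refine (I_p (p := p)).mulR (mul_mem ?_ u2.2.2)
    push_cast
    exact u1.2.2
  exact (U2 hpj).cancel h4

/-- `∏_{i<2j} (1/3+i) = (2j)! (1+b)` -/
theorem D1 (hpj : p = 6 * j + 1) {b : ℚ} (E2 : EQ p 2 (p * H (2 * j)) (-3 * b)) :
    EQ p 2 (∏ i ∈ range (2 * j), (1 / 3 + i : ℚ)) ((2 * j).factorial * (1 + b)) := by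
  have hpq : (p : ℚ) = 6 * j + 1 := by exact_mod_cast hpj
  have u3 := U3 hpj
  have hj := j_pos hpj
  have hd3 : I p 1 ((p : ℚ) / 3) := by rw [div_eq_mul_inv]; exact (I_p (p := p)).mulR u3.2.2
  have m13 : (1 / 3 : ℚ) ∈ Zp p := by rw [one_div]; exact u3.2.2
  have t := prodH (p := p) (a := 2 * j) (b := 2 * j) (le_refl _) (by omega) hd3
  rw [prod_choose _ _ (le_refl _), Nat.choose_self, Nat.sub_self] at t
  have hH0 : H 0 = 0 := by simp [H]
  rw [hH0, sub_zero, Nat.cast_one, one_mul] at t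
  have e : ∏ i ∈ range (2 * j), (((2 * j : ℕ) : ℚ) - i - p / 3) = ∏ i ∈ range (2 * j), (1 / 3 + i : ℚ) := by
    have : ∏ i ∈ range (2 * j), (((2 * j : ℕ) : ℚ) - i - p / 3) = ∏ i ∈ range (2 * j), (-1 * (1 / 3 + i : ℚ)) := by
      refine prod_congr rfl fun i _ => ?_
      rw [hpq]; push_cast; ring
    rw [this, prod_mul_distrib, prod_const, card_range, pow_mul, neg_one_sq, one_pow, one_mul]
  rw [e] at t
  have uf := U_fac (p := p) (k := 2 * j) (by omega)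
  refine t.trans ((EQ.refl uf.2.1).mul ?_)
  have h' := EQ_lin (neg_mem m13) E2
  have x1 : 1 + -(1 / 3) * (p * H (2 * j)) = 1 - p / 3 * H (2 * j) := by ring
  have x2 : 1 + -(1 / 3) * (-3 * b) = 1 + b := by ring
  rwa [x1, x2] at h'

/-- `∏_{i<4j} (2/3+i) = (4j)! (1+2b)` -/
theorem D2 (hpj : p = 6 * j + 1) {b : ℚ} (E2 : EQ p 2 (p * H (2 * j)) (-3 * b)) :
    EQ p 2 (∏ i ∈ range (4 * j), (2 / 3 + i : ℚ)) ((4 * j).factorial * (1 + 2 * b)) := by
  have hpq : (p : ℚ) = 6 * j + 1 := by exact_mod_cast hpj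
  have u3 := U3 hpj
  have u2 := U2 hpj
  have hj := j_pos hpj
  have hd3 : I p 1 (2 / 3 * (p : ℚ)) := by
    rw [div_eq_mul_inv]; exact (I_p (p := p)).mulL (mul_mem u2.2.1 u3.2.2)
  have m23 : (2 / 3 : ℚ) ∈ Zp p := by rw [div_eq_mul_inv]; exact mul_mem u2.2.1 u3.2.2
  have t := prodH (p := p) (a := 4 * j) (b := 4 * j) (le_refl _) (by omega) hd3
  rw [prod_choose _ _ (le_refl _), Nat.choose_self, Nat.sub_self] at t
  have hH0 : H 0 = 0 := by simp [H]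
  rw [hH0, sub_zero, Nat.cast_one, one_mul] at t
  have e : ∏ i ∈ range (4 * j), (((4 * j : ℕ) : ℚ) - i - 2 / 3 * p) = ∏ i ∈ range (4 * j), (2 / 3 + i : ℚ) := by
    have : ∏ i ∈ range (4 * j), (((4 * j : ℕ) : ℚ) - i - 2 / 3 * p) = ∏ i ∈ range (4 * j), (-1 * (2 / 3 + i : ℚ)) := by
      refine prod_congr rfl fun i _ => ?_
      rw [hpq]; push_cast; ring
    have e0 : (-1 : ℚ) ^ (4 * j) = 1 := by rw [pow_mul]; norm_num
    rw [this, prod_mul_distrib, prod_const, card_range, e0, one_mul]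
  rw [e] at t
  have uf := U_fac (p := p) (k := 4 * j) (by omega)
  refine t.trans ((EQ.refl uf.2.1).mul ?_)
  have h42 := H42 (p := p) hpj
  have E4 : EQ p 2 (p * H (4 * j)) (-3 * b) := by
    refine EQ.trans ⟨mul_mem p_mem (H_mem (by omega)), E2.1, ?_⟩ E2
    rw [← mul_sub]; exact (I_p (p := p)).mul h42
  have h' := EQ_lin (neg_mem m23) E4
  have x1 : 1 + -(2 / 3) * (p * H (4 * j)) = 1 - 2 / 3 * p * H (4 * j) := by ring
  have x2 : 1 + -(2 / 3) * (-3 * b) = 1 + 2 * b := by ring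
  rwa [x1, x2] at h'

/-- `∏_{i<4j} (5/6+i) = C(5j,j) (4j)!` -/
theorem N5 (hpj : p = 6 * j + 1) :
    EQ p 2 (∏ i ∈ range (4 * j), (5 / 6 + i : ℚ)) (((5 * j).choose j : ℚ) * (4 * j).factorial) := by
  have hpq : (p : ℚ) = 6 * j + 1 := by exact_mod_cast hpj
  have u6 := U6 hpj
  have hj := j_pos hpj
  have m5 : (5 : ℚ) ∈ Zp p := by exact_mod_cast nat_mem (p := p) 5
  have hd : I p 1 (5 / 6 * (p : ℚ)) := by
    rw [div_eq_mul_inv]; exact (I_p (p := p)).mulL (mul_mem m5 u6.2.2)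
  have t := prodH (p := p) (a := 5 * j) (b := 4 * j) (by omega) (by omega) hd
  rw [prod_choose _ _ (by omega), show 5 * j - 4 * j = j by omega,
    ← Nat.choose_symm_of_eq_add (show 5 * j = j + 4 * j by ring)] at t
  have e : ∏ i ∈ range (4 * j), (((5 * j : ℕ) : ℚ) - i - 5 / 6 * p) = ∏ i ∈ range (4 * j), (5 / 6 + i : ℚ) := by
    have : ∏ i ∈ range (4 * j), (((5 * j : ℕ) : ℚ) - i - 5 / 6 * p) = ∏ i ∈ range (4 * j), (-1 * (5 / 6 + i : ℚ)) := by
      refine prod_congr rfl fun i _ => ?_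
      rw [hpq]; push_cast; ring
    have e0 : (-1 : ℚ) ^ (4 * j) = 1 := by rw [pow_mul]; norm_num
    rw [this, prod_mul_distrib, prod_const, card_range, e0, one_mul]
  rw [e] at t
  have m1 : ((5 * j).choose j : ℚ) * (4 * j).factorial ∈ Zp p := mul_mem (nat_mem _) (nat_mem _)
  refine t.trans ⟨t.2.1, m1, ?_⟩
  have e2 : ((5 * j).choose j : ℚ) * (4 * j).factorial * (1 - 5 / 6 * p * (H (5 * j) - H j)) -
      ((5 * j).choose j : ℚ) * (4 * j).factorial =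
      -(((5 * j).choose j : ℚ) * (4 * j).factorial) * ((5 / 6 * p) * (H (5 * j) - H j)) := by ring
  rw [e2]
  exact (hd.mul (H51 hpj)).mulL (neg_mem m1)

end Pool.Agent.R488.Nin
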