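import Mathlib
import Pool.Agent.R488.Nin.Eval

set_option autoImplicit false

/-!
`∑ (k+2) C(3k;k,k,k)/24^k = C4 + p/C4` modulo `p^2`, `C4 = C(4j,2j)`, `p = 6j+1`.
-/

namespace Pool.Agent.R488.Nin

open Finset Pool.Agent.R439.PL Pool.Agent.R439.PL.S4 Pool.Agent.R488.Tri Pool.Agent.R488.Cub

variable {p j : ℕ} [hp : Fact p.Prime]

theorem EQ_small {x y c : ℚ} (hc : I p 1 c) (h : EQ p 1 x y) : EQ p 2 (c * x) (c * y) :=
  ⟨mul_mem hc.mem h.1, mul_mem hc.mem h.2.1, by rw [← mul_sub]; exact hc.mul h.2.2⟩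

/-- `∏_{i<m} (i + 1 + δ) = m!` modulo `p` -/
theorem fac_pos {m : ℕ} (hm : m < p) {δ : ℚ} (hδ : I p 1 δ) :
    EQ p 1 (∏ i ∈ range m, (1 + i + δ : ℚ)) (m.factorial : ℚ) := by
  have h3 : (m.factorial : ℚ) = ∏ i ∈ range m, (1 + (i : ℚ)) := by
    rw [← prod_range_add_one_eq_factorial]; push_cast
    exact prod_congr rfl fun i _ => add_comm _ _
  rw [h3]
  refine EQ.prod fun i _ => ?_
  have : (1 + i : ℚ) ∈ Zp p := add_mem (one_mem _) (nat_mem i)
  refine ⟨add_mem this hδ.mem, this, ?_⟩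
  have e : (1 + i + δ : ℚ) - (1 + i) = δ := by ring
  rw [e]; exact hδ

/-- `∏_{i<m} (i - m + δ) = (-1)^m m!` modulo `p` -/
theorem fac_neg {m : ℕ} (hm : m < p) {δ : ℚ} (hδ : I p 1 δ) :
    EQ p 1 (∏ i ∈ range m, ((i : ℚ) - m + δ)) ((-1) ^ m * (m.factorial : ℚ)) := by
  have h1 := (EQ.refl (k := 1) (neg_mem' (p := p) m)).mul (fac_pos hm hδ.neg)
  have e : (-1 : ℚ) ^ m * ∏ i ∈ range m, (1 + i + -δ : ℚ) = ∏ i ∈ range m, ((i : ℚ) - m + δ) := by
    rw [← prod_range_reflect (fun i => ((i : ℚ) - m + δ)), ← card_range m, ← prod_const, card_range,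
      ← prod_mul_distrib]
    refine prod_congr rfl fun i hi => ?_
    have hi' := mem_range.1 hi
    rw [Nat.sub_sub, Nat.cast_sub (show 1 + i ≤ m by omega)]
    push_cast
    ring
  rwa [e] at h1

theorem M1 (hpj : p = 6 * j + 1) {m : ℕ} (hm : j = m + 1) :
    EQ p 2 (∏ i ∈ range (2 * j), (7 / 6 + i : ℚ))
      (p / 6 * ((-1) ^ m * (m.factorial : ℚ) * (j.factorial : ℚ))) := by
  have hpq : (p : ℚ) = 6 * j + 1 := by exact_mod_cast hpj
  have hjq : (j : ℚ) = m + 1 := by exact_mod_cast hm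
  have u6 := U6 hpj
  have hd : I p 1 ((p : ℚ) / 6) := by rw [div_eq_mul_inv]; exact (I_p (p := p)).mulR u6.2.2
  have h1 := fac_neg (p := p) (m := m) (by omega) hd
  have h2 := fac_pos (p := p) (m := j) (by omega) hd
  have h3 := EQ_small hd (h1.mul h2)
  have e : ∏ i ∈ range (2 * j), (7 / 6 + i : ℚ) = p / 6 *
      ((∏ i ∈ range m, ((i : ℚ) - m + p / 6)) * ∏ i ∈ range j, (1 + i + p / 6 : ℚ)) := by
    rw [show 2 * j = (m + 1) + j by omega, prod_range_add, prod_range_succ]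
    have e1 : ∏ i ∈ range m, (7 / 6 + i : ℚ) = ∏ i ∈ range m, ((i : ℚ) - m + p / 6) := by
      refine prod_congr rfl fun i _ => ?_
      rw [hpq, hjq]; ring
    have e2 : ∏ i ∈ range j, (7 / 6 + ((m + 1 + i : ℕ) : ℚ)) = ∏ i ∈ range j, (1 + i + p / 6 : ℚ) := by
      refine prod_congr rfl fun i _ => ?_
      rw [hpq, hjq]; push_cast; ring
    have e3 : (7 / 6 + (m : ℚ)) = p / 6 := by rw [hpq, hjq]; ring
    rw [e1, e2, e3]; ring
  rwa [← e] at h3

theorem M2 (hpj : p = 6 * j + 1) {n : ℕ} (hn : 3 * j = n + 1) :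
    EQ p 2 (∏ i ∈ range (4 * j), (3 / 2 + i : ℚ))
      (p / 2 * ((-1) ^ n * (n.factorial : ℚ) * (j.factorial : ℚ))) := by
  have hpq : (p : ℚ) = 6 * j + 1 := by exact_mod_cast hpj
  have hjq : (3 * j : ℚ) = n + 1 := by exact_mod_cast hn
  have u2 := U2 hpj
  have hd : I p 1 ((p : ℚ) / 2) := by rw [div_eq_mul_inv]; exact (I_p (p := p)).mulR u2.2.2
  have h1 := fac_neg (p := p) (m := n) (by omega) hd
  have h2 := fac_pos (p := p) (m := j) (by omega) hd
  have h3 := EQ_small hd (h1.mul h2)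
  have e : ∏ i ∈ range (4 * j), (3 / 2 + i : ℚ) = p / 2 *
      ((∏ i ∈ range n, ((i : ℚ) - n + p / 2)) * ∏ i ∈ range j, (1 + i + p / 2 : ℚ)) := by
    rw [show 4 * j = (n + 1) + j by omega, prod_range_add, prod_range_succ]
    have e1 : ∏ i ∈ range n, (3 / 2 + i : ℚ) = ∏ i ∈ range n, ((i : ℚ) - n + p / 2) := by
      refine prod_congr rfl fun i _ => ?_
      rw [hpq]; linear_combination -hjq
    have e2 : ∏ i ∈ range j, (3 / 2 + ((n + 1 + i : ℕ) : ℚ)) = ∏ i ∈ range j, (1 + i + p / 2 : ℚ) := by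
      refine prod_congr rfl fun i _ => ?_
      rw [hpq]; push_cast; linear_combination -hjq
    have e3 : (3 / 2 + (n : ℚ)) = p / 2 := by rw [hpq]; linear_combination -hjq
    rw [e1, e2, e3]; ring
  rwa [← e] at h3

/-- `α = C4 (1-a-b)` -/
theorem alpha_eq (h : StmtA) (hpj : p = 6 * j + 1) {a b C4 : ℚ} (hC4 : C4 = ((4 * j).choose (2 * j) : ℚ))
    (ha : a = 64 ^ j - 1) (Ia : I p 1 a) (Ib : I p 1 b) (uC4 : U p C4)
    (E2 : EQ p 2 (p * H (2 * j)) (-3 * b)) :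
    EQ p 2 (AA p (p / 3)) (C4 * (1 + (-a + -b))) := by
  have hj := j_pos hpj
  rw [AA_one h hpj, prod_div_distrib]
  have uf := U_fac (p := p) (k := 2 * j) (by omega)
  have d1 := D1 (p := p) hpj E2
  have ud : U p (((2 * j).factorial : ℚ) * (1 + b)) := uf.mul (U_small Ib)
  have ud' := d1.symm.unit (by norm_num) ud
  have N1 : ∏ i ∈ range (2 * j), (1 / 2 + i : ℚ) = C4 * (2 * j).factorial * (16 ^ j)⁻¹ := by
    have h2 := C4_half (2 * j)
    rw [show 2 * (2 * j) = 4 * j by ring, ← hC4, prod_div_distrib, pow_mul] at h2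
    have h3 : ((2 * j).factorial : ℚ) = ∏ i ∈ range (2 * j), (1 + (i : ℚ)) := by
      rw [← prod_range_add_one_eq_factorial]; push_cast
      exact prod_congr rfl fun i _ => add_comm _ _
    rw [← h3] at h2
    have e0 : (4 : ℚ) ^ 2 = 16 := by norm_num
    rw [e0] at h2
    have a1 := uf.1
    rw [h2]
    field_simp
  have u16 : U p ((16 : ℚ) ^ j) := by
    have : (16 : ℚ) = 4 * 4 := by norm_num
    rw [this]; exact ((U4 hpj).mul (U4 hpj)).pow j
  have u4 : U p ((4 : ℚ) ^ j) := (U4 hpj).pow j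
  rw [N1]
  have m1 : C4 * (2 * j).factorial * (16 ^ j)⁻¹ ∈ Zp p := mul_mem (mul_mem uC4.2.1 uf.2.1) u16.2.2
  have t := (EQ.refl (k := 2) m1).div (by norm_num) d1 ud'
  have m2 : ((1 / 2 : ℚ)) ^ (2 * j) = (4 ^ j)⁻¹ := by
    rw [pow_mul, one_div, ← inv_pow]; norm_num
  rw [m2]
  have t2 := (EQ.refl (k := 2) u4.2.2).mul t
  have ub := U_small Ib
  have ua := U_small Ia
  have e : (4 ^ j)⁻¹ * (C4 * (2 * j).factorial * (16 ^ j)⁻¹ / (((2 * j).factorial : ℚ) * (1 + b))) =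
      C4 * ((1 + a)⁻¹ * (1 + b)⁻¹) := by
    have a1 := uf.1
    have a2 := ub.1
    have e64 : (64 : ℚ) ^ j = 4 ^ j * 16 ^ j := by rw [← mul_pow]; norm_num
    have e1 : (1 + a : ℚ) = 4 ^ j * 16 ^ j := by rw [ha, ← e64]; ring
    rw [e1]
    have a3 := u16.1
    have a4 := u4.1
    field_simp
  rw [e] at t2
  have t3 := (inv_small Ia).mul (inv_small Ib)
  have t4 := mul_small Ia.neg Ib.neg
  rw [← sub_eq_add_neg, ← sub_eq_add_neg] at t4
  have t5 := (EQ.refl (k := 2) uC4.2.1).mul (t3.trans t4)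
  have x : 1 - a + -b = 1 + (-a + -b) := by ring
  rw [x] at t5
  exact t2.trans t5

/-- `β = C4 (1-2a-2b)` -/
theorem beta_eq (h : StmtB) (hpj : p = 6 * j + 1) {a b C4 C2 : ℚ}
    (hC2 : C2 = ((2 * j).choose j : ℚ))
    (ha : a = 64 ^ j - 1) (Ia : I p 1 a) (Ib : I p 1 b) (uC4 : U p C4) (mC2 : C2 ∈ Zp p)
    (E2 : EQ p 2 (p * H (2 * j)) (-3 * b)) (E1 : EQ p 2 (p * H j) (-2 * a - 3 * b))
    (e6 : EQ p 2 (C4 * (1 + a)) ((-4) ^ j * C2)) :
    EQ p 2 (AA p (2 * (p / 3))) (C4 * (1 + (-2 * a + -2 * b))) := by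
  have hj := j_pos hpj
  have u2 := U2 hpj
  have u3 := U3 hpj
  have m2 : (-2 : ℚ) ∈ Zp p := neg_mem u2.2.1
  rw [AA_two h hpj, prod_div_distrib]
  have uf := U_fac (p := p) (k := 4 * j) (by omega)
  have d2 := D2 (p := p) hpj E2
  have I2b : I p 1 (2 * b) := Ib.mulL u2.2.1
  have I2a : I p 1 (2 * a) := Ia.mulL u2.2.1
  have I3b : I p 1 (3 * b) := Ib.mulL u3.2.1
  have Iab : I p 1 (2 * a + 3 * b) := I2a.add I3b
  have ud : U p (((4 * j).factorial : ℚ) * (1 + 2 * b)) := uf.mul (U_small I2b)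
  have ud' := d2.symm.unit (by norm_num) ud
  have u16 : U p ((16 : ℚ) ^ j) := by
    have : (16 : ℚ) = 4 * 4 := by norm_num
    rw [this]; exact ((U4 hpj).mul (U4 hpj)).pow j
  have u4 : U p ((4 : ℚ) ^ j) := (U4 hpj).pow j
  have t := (N5 (p := p) hpj).div (by norm_num) d2 ud'
  have m2' : ((1 / 2 : ℚ)) ^ (4 * j) = (16 ^ j)⁻¹ := by
    rw [pow_mul, one_div, ← inv_pow]; norm_num
  rw [m2']
  have t2 := (EQ.refl (k := 2) u16.2.2).mul t
  have ub := U_small I2b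
  have e : (16 ^ j)⁻¹ * (((5 * j).choose j : ℚ) * (4 * j).factorial / (((4 * j).factorial : ℚ) * (1 + 2 * b))) =
      (16 ^ j)⁻¹ * (((5 * j).choose j : ℚ) * (1 + 2 * b)⁻¹) := by
    have a1 := uf.1
    have a2 := ub.1
    field_simp
  rw [e] at t2
  -- C(5j,j) = (-1)^j C2 (1-2a)
  have uC5 : U p ((5 * j).choose j : ℚ) := C_unit (by omega) (by omega)
  have x : ((6 * j).choose j : ℚ) * ((5 * j).choose j : ℚ) = ((6 * j).choose (2 * j) : ℚ) * C2 := by
    have h1 := Nat.choose_mul_factorial_mul_factorial (show j ≤ 6 * j by omega)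
    have h2 := Nat.choose_mul_factorial_mul_factorial (show j ≤ 5 * j by omega)
    have h3 := Nat.choose_mul_factorial_mul_factorial (show 2 * j ≤ 6 * j by omega)
    have h5 := Nat.choose_mul_factorial_mul_factorial (show j ≤ 2 * j by omega)
    rw [show 6 * j - j = 5 * j by omega] at h1
    rw [show 5 * j - j = 4 * j by omega] at h2
    rw [show 6 * j - 2 * j = 4 * j by omega] at h3
    rw [show 2 * j - j = j by omega] at h5
    have f1 : (j.factorial : ℚ) ≠ 0 := by exact_mod_cast j.factorial_ne_zero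
    have f2 : ((2 * j).factorial : ℚ) ≠ 0 := by exact_mod_cast (2 * j).factorial_ne_zero
    have f4 : ((4 * j).factorial : ℚ) ≠ 0 := by exact_mod_cast (4 * j).factorial_ne_zero
    have f5 : ((5 * j).factorial : ℚ) ≠ 0 := by exact_mod_cast (5 * j).factorial_ne_zero
    have g1 : ((6 * j).choose j : ℚ) = (6 * j).factorial / (j.factorial * (5 * j).factorial) := by
      rw [eq_div_iff (mul_ne_zero f1 f5), ← mul_assoc]; exact_mod_cast h1
    have g2 : ((5 * j).choose j : ℚ) = (5 * j).factorial / (j.factorial * (4 * j).factorial) := by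
      rw [eq_div_iff (mul_ne_zero f1 f4), ← mul_assoc]; exact_mod_cast h2
    have g3 : ((6 * j).choose (2 * j) : ℚ) = (6 * j).factorial / ((2 * j).factorial * (4 * j).factorial) := by
      rw [eq_div_iff (mul_ne_zero f2 f4), ← mul_assoc]; exact_mod_cast h3
    have g5 : C2 = (2 * j).factorial / (j.factorial * j.factorial) := by
      rw [hC2, eq_div_iff (mul_ne_zero f1 f1), ← mul_assoc]; exact_mod_cast h5
    rw [g1, g2, g3, g5]
    field_simp
  have y1 := choose_pm2 (p := p) (k := j) (by omega)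
  have y2 := choose_pm2 (p := p) (k := 2 * j) (by omega)
  rw [show p - 1 = 6 * j by omega] at y1 y2
  have m1 := neg_mem' (p := p) j
  have s1 := mone_sq' j
  have z1 : EQ p 2 ((6 * j).choose j : ℚ) ((-1) ^ j * (1 + (2 * a + 3 * b))) := by
    refine y1.trans ((EQ.refl m1).mul ?_)
    have h' := EQ_lin (neg_mem (one_mem _)) E1
    have x1 : 1 + -1 * (p * H j) = 1 - p * H j := by ring
    have x2 : 1 + -1 * (-2 * a - 3 * b) = 1 + (2 * a + 3 * b) := by ring
    rwa [x1, x2] at h'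
  have z2 : EQ p 2 ((6 * j).choose (2 * j) : ℚ) (1 + 3 * b) := by
    refine y2.trans ?_
    have e : (-1 : ℚ) ^ (2 * j) = 1 := by rw [pow_mul]; norm_num
    rw [e, one_mul]
    have h' := EQ_lin (neg_mem (one_mem _)) E2
    have x1 : 1 + -1 * (p * H (2 * j)) = 1 - p * H (2 * j) := by ring
    have x2 : 1 + -1 * (-3 * b) = 1 + 3 * b := by ring
    rwa [x1, x2] at h'
  have w1 : EQ p 2 (((5 * j).choose j : ℚ)) ((-1) ^ j * C2 * (1 + -2 * a)) := by
    have l := z1.mul (EQ.refl (k := 2) uC5.2.1)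
    have r := z2.mul (EQ.refl (k := 2) mC2)
    rw [x] at l
    have lr := l.symm.trans r
    have q := (EQ.refl (k := 2) (mul_mem m1 (sub_mem (one_mem _) Iab.mem))).mul lr
    have q1 : (-1) ^ j * (1 - (2 * a + 3 * b)) * ((-1) ^ j * (1 + (2 * a + 3 * b)) * ((5 * j).choose j : ℚ)) =
        ((1 + (2 * a + 3 * b)) * (1 + -(2 * a + 3 * b))) * ((5 * j).choose j : ℚ) := by
      linear_combination ((1 - (2 * a + 3 * b)) * (1 + (2 * a + 3 * b)) * ((5 * j).choose j : ℚ)) * s1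
    have q2 : (-1) ^ j * (1 - (2 * a + 3 * b)) * ((1 + 3 * b) * C2) =
        (-1) ^ j * C2 * ((1 + 3 * b) * (1 + -(2 * a + 3 * b))) := by ring
    rw [q1, q2] at q
    have q3 := (mul_small Iab Iab.neg).mul (EQ.refl (k := 2) uC5.2.1)
    have q4 : (1 + (2 * a + 3 * b) + -(2 * a + 3 * b)) * ((5 * j).choose j : ℚ) = ((5 * j).choose j : ℚ) := by ring
    rw [q4] at q3
    have q5 := (EQ.refl (k := 2) (mul_mem m1 mC2)).mul (mul_small I3b Iab.neg)
    have q6 : 1 + 3 * b + -(2 * a + 3 * b) = 1 + -2 * a := by ring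
    rw [q6] at q5
    exact (q3.symm.trans q).trans q5
  have In2a : I p 1 (-2 * a) := Ia.mulL m2
  have In2b : I p 1 (-2 * b) := Ib.mulL m2
  -- combine
  have v1 : EQ p 2 ((-1) ^ j * C2) ((4 ^ j)⁻¹ * (C4 * (1 + a))) := by
    have q := (EQ.refl (k := 2) u4.2.2).mul e6.symm
    have q1 : ((4 : ℚ) ^ j)⁻¹ * ((-4) ^ j * C2) = (-1) ^ j * C2 := by
      have y2 : (-4 : ℚ) ^ j = (-1) ^ j * 4 ^ j := by rw [← mul_pow]; norm_num
      have a4 := u4.1
      rw [y2]; field_simp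
    rwa [q1] at q
  have v2 := (v1.mul (EQ.refl (k := 2) (U_small In2a).2.1))
  have v3 := w1.trans v2
  have v4 := (EQ.refl (k := 2) u16.2.2).mul (v3.mul (inv_small I2b))
  have v5 : (16 ^ j)⁻¹ * ((4 ^ j)⁻¹ * (C4 * (1 + a)) * (1 + -2 * a) * (1 - 2 * b)) =
      C4 * ((1 + -2 * a) * (1 + -2 * b)) := by
    have e64 : (64 : ℚ) ^ j = 4 ^ j * 16 ^ j := by rw [← mul_pow]; norm_num
    have e1 : (1 + a : ℚ) = 4 ^ j * 16 ^ j := by rw [ha, ← e64]; ring
    rw [e1]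
    have a3 := u16.1
    have a4 := u4.1
    field_simp
    ring
  rw [v5] at v4
  have v6 := (EQ.refl (k := 2) uC4.2.1).mul (mul_small In2a In2b)
  have v7 : 1 + -2 * a + -2 * b = 1 + (-2 * a + -2 * b) := by ring
  rw [v7] at v6
  exact (t2.trans v4).trans v6

end Pool.Agent.R488.Nin
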