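import Mathlib
import Pool.Agent.R488.Nin.Eval2
import Pool.Agent.R488.Nin.A
import Pool.Agent.R488.Nin.B
import Pool.Agent.R488.Cub.Main

set_option autoImplicit false

/-!
`∑ (k+2) C(3k;k,k,k)/24^k = C4 + p/C4 = x` modulo `p^2`, `C4 = C(4j,2j)`, `p = 6j+1`.
-/

namespace Pool.Agent.R488.Nin

open Finset Pool.Agent.R439.PL Pool.Agent.R439.PL.S4 Pool.Agent.R488.Tri Pool.Agent.R488.Cub

variable {p j : ℕ} [hp : Fact p.Prime]

theorem inv_one_add {s : ℚ} (hs : I p 1 s) : EQ p 1 (1 + s)⁻¹ 1 := by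
  refine ((inv_small hs).mono (by norm_num)).trans ⟨sub_mem (one_mem _) hs.mem, one_mem _, ?_⟩
  have e : 1 - s - 1 = -s := by ring
  rw [e]; exact hs.neg

theorem U_neg {x : ℚ} (h : U p x) : U p (-x) :=
  ⟨neg_ne_zero.2 h.1, neg_mem h.2.1, by rw [inv_neg]; exact neg_mem h.2.2⟩

theorem EQ_one {C a : ℚ} (hC : C ∈ Zp p) (ha : I p 1 a) : EQ p 1 (C * (1 + a)) C := by
  refine ⟨mul_mem hC (add_mem (one_mem _) ha.mem), hC, ?_⟩
  have e : C * (1 + a) - C = C * a := by ring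
  rw [e]; exact ha.mulL hC

theorem Ga_eq (h : StmtGA) (hpj : p = 6 * j + 1) {a b C4 C2 : ℚ}
    (hC2 : C2 = ((2 * j).choose j : ℚ)) (Ia : I p 1 a) (Ib : I p 1 b) (uC4 : U p C4)
    (E2 : EQ p 2 (p * H (2 * j)) (-3 * b))
    (e6 : EQ p 2 (C4 * (1 + a)) ((-4) ^ j * C2)) :
    EQ p 2 (GG p (p / 3)) (p * (2 * C4⁻¹)) := by
  have hpq : (p : ℚ) = 6 * j + 1 := by exact_mod_cast hpj
  have hj := j_pos hpj
  obtain ⟨m, hm⟩ : ∃ m, j = m + 1 := ⟨j - 1, by omega⟩
  have u2 := U2 hpj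
  have u3 := U3 hpj
  have uj : U p (j : ℚ) := U_nat hj (by omega)
  rw [GG_one h hpj, prod_div_distrib]
  have uf := U_fac (p := p) (k := 2 * j) (by omega)
  have d1 := D1 (p := p) hpj E2
  have ub := U_small Ib
  have ud : U p (((2 * j).factorial : ℚ) * (1 + b)) := uf.mul ub
  have ud' := d1.symm.unit (by norm_num) ud
  have t := (M1 (p := p) hpj hm).div (by norm_num) d1 ud'
  have u4 : U p ((4 : ℚ) ^ j) := (U4 hpj).pow j
  have uC2 : U p C2 := by rw [hC2]; exact C_unit (by omega) (by omega)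
  have m2' : ((1 / 2 : ℚ)) ^ (2 * j) = (4 ^ j)⁻¹ := by
    rw [pow_mul, one_div, ← inv_pow]; norm_num
  rw [m2']
  have t2 := (EQ.refl (k := 2) (mul_mem u2.2.1 u4.2.2)).mul t
  have h5 : C2 * (j.factorial * j.factorial : ℚ) = (2 * j).factorial := by
    have h5 := Nat.choose_mul_factorial_mul_factorial (show j ≤ 2 * j by omega)
    rw [show 2 * j - j = j by omega] at h5
    rw [hC2, ← mul_assoc]; exact_mod_cast h5
  have h6 : (j.factorial : ℚ) = j * m.factorial := by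
    rw [hm, Nat.factorial_succ]; push_cast; ring
  have e : 2 * (4 ^ j)⁻¹ * (p / 6 * ((-1) ^ m * (m.factorial : ℚ) * (j.factorial : ℚ)) /
      (((2 * j).factorial : ℚ) * (1 + b))) = p * (-(3 * (j : ℚ))⁻¹ * (((-4) ^ j * C2)⁻¹ * (1 + b)⁻¹)) := by
    have a1 := uf.1
    have a2 := ub.1
    have a3 := uj.1
    have a4 := u4.1
    have a5 := uC2.1
    have a6 : (m.factorial : ℚ) ≠ 0 := by exact_mod_cast m.factorial_ne_zero
    have y2 : (-4 : ℚ) ^ j = -((-1) ^ m * 4 ^ j) := by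
      have : (-4 : ℚ) = (-1) * 4 := by norm_num
      rw [this, mul_pow]
      conv_lhs => rw [hm, pow_succ, ← hm]
      ring
    have s1 := mone_sq' m
    have a7 : ((-1 : ℚ)) ^ m ≠ 0 := pow_ne_zero _ (by norm_num)
    rw [y2, ← h5, h6]
    rw [eq_comm]
    field_simp
    linear_combination (-6 * (p : ℚ)) * s1
  rw [e] at t2
  have r1 : EQ p 1 (-(3 * (j : ℚ))⁻¹) 2 := by
    have uu := u3.mul uj
    refine ⟨neg_mem uu.2.2, u2.2.1, ?_⟩
    have e : -(3 * (j : ℚ))⁻¹ - 2 = p * (-(3 * (j : ℚ))⁻¹) := by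
      have a3 := uj.1
      rw [hpq]; field_simp; ring
    rw [e]; exact (I_p (p := p)).mulR (neg_mem uu.2.2)
  have uX : U p ((-4) ^ j * C2) := ((U_neg (U4 hpj)).pow j).mul uC2
  have r2 : EQ p 1 (((-4) ^ j * C2)⁻¹) C4⁻¹ :=
    ((e6.mono (by norm_num : 1 ≤ 2)).symm.trans (EQ_one uC4.2.1 Ia)).inv (by norm_num) uX
  have r3 := r1.mul (r2.mul (inv_one_add Ib))
  rw [mul_one] at r3
  exact t2.trans (EQ_small I_p r3)

theorem Gb_eq (h : StmtGB) (hpj : p = 6 * j + 1) {a b C4 C3 C2 : ℚ}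
    (hC4 : C4 = ((4 * j).choose (2 * j) : ℚ)) (hC3 : C3 = ((3 * j).choose j : ℚ))
    (hC2 : C2 = ((2 * j).choose j : ℚ)) (ha : a = 64 ^ j - 1)
    (Ia : I p 1 a) (Ib : I p 1 b) (uC4 : U p C4)
    (E2 : EQ p 2 (p * H (2 * j)) (-3 * b))
    (e1 : EQ p 2 C4 (16 ^ j * C3 * (1 + -(3 / 2) * b)))
    (e6 : EQ p 2 (C4 * (1 + a)) ((-4) ^ j * C2)) :
    EQ p 2 (GG p (2 * (p / 3))) (p * (3 * C4⁻¹)) := by
  have hpq : (p : ℚ) = 6 * j + 1 := by exact_mod_cast hpj
  have hj := j_pos hpj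
  obtain ⟨n, hn⟩ : ∃ n, 3 * j = n + 1 := ⟨3 * j - 1, by omega⟩
  have u2 := U2 hpj
  have u3 := U3 hpj
  have uj : U p (j : ℚ) := U_nat hj (by omega)
  rw [GG_two h hpj, prod_div_distrib]
  have uf := U_fac (p := p) (k := 4 * j) (by omega)
  have d2 := D2 (p := p) hpj E2
  have I2b : I p 1 (2 * b) := Ib.mulL u2.2.1
  have I32b : I p 1 (-(3 / 2) * b) := by
    have : -(3 / 2) * b = (-(3 * 2⁻¹)) * b := by ring
    rw [this]; exact Ib.mulL (neg_mem (mul_mem u3.2.1 u2.2.2))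
  have ub := U_small I2b
  have ud : U p (((4 * j).factorial : ℚ) * (1 + 2 * b)) := uf.mul ub
  have ud' := d2.symm.unit (by norm_num) ud
  have t := (M2 (p := p) hpj hn).div (by norm_num) d2 ud'
  have u16 : U p ((16 : ℚ) ^ j) := by
    have : (16 : ℚ) = 4 * 4 := by norm_num
    rw [this]; exact ((U4 hpj).mul (U4 hpj)).pow j
  have u4 : U p ((4 : ℚ) ^ j) := (U4 hpj).pow j
  have uC2 : U p C2 := by rw [hC2]; exact C_unit (by omega) (by omega)
  have uC3 : U p C3 := by rw [hC3]; exact C_unit (by omega) (by omega)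
  have m2' : ((1 / 2 : ℚ)) ^ (4 * j) = (16 ^ j)⁻¹ := by
    rw [pow_mul, one_div, ← inv_pow]; norm_num
  rw [m2']
  have t2 := (EQ.refl (k := 2) (mul_mem u3.2.1 u16.2.2)).mul t
  have f1 : (j.factorial : ℚ) ≠ 0 := by exact_mod_cast j.factorial_ne_zero
  have f2 : ((2 * j).factorial : ℚ) ≠ 0 := by exact_mod_cast (2 * j).factorial_ne_zero
  have f3 : ((3 * j).factorial : ℚ) ≠ 0 := by exact_mod_cast (3 * j).factorial_ne_zero
  have f4 : ((4 * j).factorial : ℚ) ≠ 0 := by exact_mod_cast (4 * j).factorial_ne_zero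
  have fn : (n.factorial : ℚ) ≠ 0 := by exact_mod_cast n.factorial_ne_zero
  have g3 : C3 = (3 * j).factorial / (j.factorial * (2 * j).factorial) := by
    have h := Nat.choose_mul_factorial_mul_factorial (show j ≤ 3 * j by omega)
    rw [show 3 * j - j = 2 * j by omega] at h
    rw [hC3, eq_div_iff (mul_ne_zero f1 f2), ← mul_assoc]; exact_mod_cast h
  have g4 : C4 = (4 * j).factorial / ((2 * j).factorial * (2 * j).factorial) := by
    have h := Nat.choose_mul_factorial_mul_factorial (show 2 * j ≤ 4 * j by omega)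
    rw [show 4 * j - 2 * j = 2 * j by omega] at h
    rw [hC4, eq_div_iff (mul_ne_zero f2 f2), ← mul_assoc]; exact_mod_cast h
  have g2 : C2 = (2 * j).factorial / (j.factorial * j.factorial) := by
    have h := Nat.choose_mul_factorial_mul_factorial (show j ≤ 2 * j by omega)
    rw [show 2 * j - j = j by omega] at h
    rw [hC2, eq_div_iff (mul_ne_zero f1 f1), ← mul_assoc]; exact_mod_cast h
  have g5 : ((3 * j).factorial : ℚ) = 3 * j * n.factorial := by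
    have : ((3 * j : ℕ) : ℚ) = n + 1 := by exact_mod_cast hn
    have h : ((3 * j).factorial : ℚ) = (n + 1) * n.factorial := by
      rw [hn, Nat.factorial_succ]; push_cast; ring
    rw [h, ← this]; push_cast; ring
  have e : 3 * (16 ^ j)⁻¹ * (p / 2 * ((-1) ^ n * (n.factorial : ℚ) * (j.factorial : ℚ)) /
      (((4 * j).factorial : ℚ) * (1 + 2 * b))) =
      p * (-(2 * (j : ℚ))⁻¹ * ((-1) ^ j * (256 ^ j)⁻¹ * (16 ^ j * C3) * C2⁻¹) * (C4⁻¹ * (1 + 2 * b)⁻¹)) := by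
    have a2 := ub.1
    have a3 := uj.1
    have a4 := u4.1
    have a16 := u16.1
    have y2 : (-1 : ℚ) ^ n = -(-1) ^ j := by
      have h1 : (-1 : ℚ) ^ (3 * j) = (-1) ^ j := by rw [pow_mul]; norm_num
      rw [hn, pow_succ] at h1
      linear_combination -h1
    have y3 : (256 : ℚ) ^ j = 16 ^ j * 16 ^ j := by rw [← mul_pow]; norm_num
    rw [y2, y3, g2, g3, g4, g5]
    field_simp
  rw [e] at t2
  have r1 : EQ p 1 (-(2 * (j : ℚ))⁻¹) 3 := by
    have uu := u2.mul uj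
    refine ⟨neg_mem uu.2.2, u3.2.1, ?_⟩
    have e : -(2 * (j : ℚ))⁻¹ - 3 = p * (-(2 * (j : ℚ))⁻¹) := by
      have a3 := uj.1
      rw [hpq]; field_simp; ring
    rw [e]; exact (I_p (p := p)).mulR (neg_mem uu.2.2)
  have m1 := neg_mem' (p := p) j
  have u256 : U p ((256 : ℚ) ^ j) := by
    have y3 : (256 : ℚ) ^ j = 16 ^ j * 16 ^ j := by rw [← mul_pow]; norm_num
    rw [y3]; exact u16.mul u16
  have r2 : EQ p 1 ((-1) ^ j * (256 ^ j)⁻¹ * (16 ^ j * C3) * C2⁻¹) 1 := by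
    have q1 := (e1.mono (by norm_num : 1 ≤ 2)).trans (EQ_one (mul_mem u16.2.1 uC3.2.1) I32b)
    have q2 := (e6.mono (by norm_num : 1 ≤ 2)).symm.trans (EQ_one uC4.2.1 Ia)
    have q3 := q1.symm.trans q2.symm
    have q4 := ((EQ.refl (k := 1) (mul_mem m1 u256.2.2)).mul q3).mul (EQ.refl (k := 1) uC2.2.2)
    have q5 : (-1) ^ j * (256 ^ j)⁻¹ * ((-4) ^ j * C2) * C2⁻¹ = (1 + a)⁻¹ := by
      have e64 : (64 : ℚ) ^ j = 4 ^ j * 16 ^ j := by rw [← mul_pow]; norm_num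
      have e1 : (1 + a : ℚ) = 4 ^ j * 16 ^ j := by rw [ha, ← e64]; ring
      have y2 : (-4 : ℚ) ^ j = (-1) ^ j * 4 ^ j := by rw [← mul_pow]; norm_num
      have y3 : (256 : ℚ) ^ j = 4 ^ j * 4 ^ j * 16 ^ j := by rw [← mul_pow, ← mul_pow]; norm_num
      have s1 := mone_sq' j
      have a3 := uC2.1
      have a4 := u4.1
      have a16 := u16.1
      rw [e1, y2, y3]
      field_simp
      linear_combination s1
    rw [q5] at q4
    exact q4.trans (inv_one_add Ia)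
  have r3 := (r1.mul r2).mul ((EQ.refl (k := 1) uC4.2.2).mul (inv_one_add I2b))
  rw [mul_one, mul_one] at r3
  exact t2.trans (EQ_small I_p r3)

/-- both sums -/
theorem both (hpj : p = 6 * j + 1) : EQ p 2 (AA p 0) ((4 * j).choose (2 * j) : ℚ) ∧
    EQ p 2 (GG p 0) (p * ((4 * j).choose (2 * j) : ℚ)⁻¹) := by
  obtain ⟨a, b, C4, C3, C2, hC4, hC3, hC2, ha, hb, Ia, Ib, uC4, mC3, mC2, E3, E2, E1, e1, e6⟩ :=
    facts harm hpj
  have u3 := U3 hpj
  have u2 := U2 hpj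
  have hI3 : I p 1 ((p : ℚ) / 3) := by rw [div_eq_mul_inv]; exact (I_p (p := p)).mulR u3.2.2
  have al := alpha_eq evA hpj hC4 ha Ia Ib uC4 E2
  have be := beta_eq evB hpj hC2 ha Ia Ib uC4 mC2 E2 E1 e6
  have ga := Ga_eq evGA hpj hC2 Ia Ib uC4 E2 e6
  have gb := Gb_eq evGB hpj hC4 hC3 hC2 ha Ia Ib uC4 E2 e1 e6
  rw [← hC4]
  constructor
  · have fin := (lin_AA (p := p) hpj).interp hI3
    have fin2 := ((EQ.refl (k := 2) u2.2.1).mul al).sub be
    have x : 2 * (C4 * (1 + (-a + -b))) - C4 * (1 + (-2 * a + -2 * b)) = C4 := by ring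
    rw [x] at fin2
    exact fin.trans fin2
  · have fin := (lin_GG (p := p) hpj).interp hI3
    have fin2 := ((EQ.refl (k := 2) u2.2.1).mul ga).sub gb
    have x : 2 * (p * (2 * C4⁻¹)) - p * (3 * C4⁻¹) = p * C4⁻¹ := by ring
    rw [x] at fin2
    exact fin.trans fin2

theorem tn_zero (k : ℕ) : tn 0 k = ((3 * k).factorial : ℚ) / (k.factorial : ℚ) ^ 3 / 24 ^ k := by
  induction k with
  | zero => simp [tn]
  | succ k ih =>
    have h1 : tn 0 (k + 1) = tn 0 k * (9 / 8 * ((1 / 3 + (k : ℚ)) * (2 / 3 + (k : ℚ)) *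
        ((1 + (k : ℚ)) * (1 + (k : ℚ)))⁻¹)) := by
      rw [tn, tn, prod_range_succ, pow_succ, mul_zero, sub_zero, sub_zero, sub_zero]; ring
    have h2 : ((3 * (k + 1)).factorial : ℚ) = (3 * k + 3) * (3 * k + 2) * (3 * k + 1) * (3 * k).factorial := by
      rw [show 3 * (k + 1) = 3 * k + 1 + 1 + 1 by ring, Nat.factorial_succ, Nat.factorial_succ, Nat.factorial_succ]
      push_cast; ring
    have h3 : ((k + 1).factorial : ℚ) = (k + 1) * k.factorial := by rw [Nat.factorial_succ]; push_cast; ring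
    have a1 : (k : ℚ) + 1 ≠ 0 := by positivity
    have a2 : (1 : ℚ) + k ≠ 0 := by positivity
    have a3 : (k.factorial : ℚ) ≠ 0 := by exact_mod_cast k.factorial_ne_zero
    rw [h1, ih, h2, h3, pow_succ]
    field_simp
    ring

theorem main_x (hpj : p = 6 * j + 1) {x y : ℤ} (hL : 4 * (p : ℤ) = x ^ 2 + 27 * y ^ 2)
    (hL2 : x % 3 = 2) :
    EQ p 2 (∑ k ∈ range p, ((k : ℚ) + 2) * (((3 * k).factorial : ℚ) / (k.factorial : ℚ) ^ 3 / 24 ^ k)) x ∧
    EQ p 2 (∑ k ∈ range p, (((3 * k).factorial : ℚ) / (k.factorial : ℚ) ^ 3 / 24 ^ k))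
      ((4 * j).choose (2 * j) : ℚ) := by
  have hj := j_pos hpj
  obtain ⟨h1, h2⟩ := both (p := p) hpj
  have e0 : ∑ k ∈ range p, (((3 * k).factorial : ℚ) / (k.factorial : ℚ) ^ 3 / 24 ^ k) = AA p 0 := by
    rw [AA]; exact sum_congr rfl fun k _ => (tn_zero k).symm
  have e1 : ∑ k ∈ range p, ((k : ℚ) + 2) * (((3 * k).factorial : ℚ) / (k.factorial : ℚ) ^ 3 / 24 ^ k) =
      AA p 0 + GG p 0 := by
    rw [AA, GG, ← sum_add_distrib]
    refine sum_congr rfl fun k _ => ?_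
    rw [← tn_zero k]; ring
  refine ⟨?_, by rw [e0]; exact h1⟩
  rw [e1]
  have h3 := choose_L (p := p) hpj hL hL2
  have uC : U p ((4 * j).choose (2 * j) : ℚ) := C_unit (by omega) (by omega)
  have hx : (x : ℚ) ∈ Zp p := int_mem x
  -- x is a unit
  have ux : U p (x : ℚ) := by
    refine U_int ?_
    rintro ⟨c, hc⟩
    have hp0 := hp.out.two_le
    have h4 : (p : ℤ) ∣ 27 * y ^ 2 := ⟨4 - p * c ^ 2, by rw [hc] at hL; linear_combination -hL⟩
    have hpz := Nat.prime_iff_prime_int.1 hp.out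
    have h5 : (p : ℤ) ∣ y := by
      rcases hpz.dvd_or_dvd h4 with h | h
      · exfalso
        have : (p : ℤ) ∣ 3 ^ 3 := by norm_num; exact h
        have h6 := hpz.dvd_of_dvd_pow this
        have h7 := Int.le_of_dvd (by norm_num) h6
        omega
      · exact hpz.dvd_of_dvd_pow h
    obtain ⟨d, hd⟩ := h5
    have h8 : 4 = (p : ℤ) * (c ^ 2 + 27 * d ^ 2) := by
      have hp1 : (p : ℤ) ≠ 0 := by exact_mod_cast hp.out.ne_zero
      apply mul_left_cancel₀ hp1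
      rw [hc, hd] at hL
      linear_combination hL
    have h9 : (p : ℤ) ∣ 4 := ⟨_, h8⟩
    have h10 := Int.le_of_dvd (by norm_num) h9
    omega
  have hpx : EQ p 1 ((x : ℚ) - p / x) x := by
    refine ⟨h3.2.1, hx, ?_⟩
    have e : (x : ℚ) - p / x - x = p * (-(x : ℚ)⁻¹) := by rw [div_eq_mul_inv]; ring
    rw [e]; exact (I_p (p := p)).mulR (neg_mem ux.2.2)
  have h4 := ((h3.mono (by norm_num : 1 ≤ 2)).trans hpx).inv (by norm_num) uC
  have h5 := h2.trans (EQ_small I_p h4)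
  have h6 := (h1.trans h3).add h5
  have e2 : (x : ℚ) - p / x + p * (x : ℚ)⁻¹ = x := by rw [div_eq_mul_inv]; ring
  rwa [e2] at h6

end Pool.Agent.R488.Nin
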